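import Pool.Agent.K3h34.BF.Stm

/-! Brick IBP of `Pool.Agent.K3h34.BF.Stm`: integration by parts for `exp (s L)`. -/

set_option autoImplicit false

namespace Pool.Agent.K3h67.BF

open MvPolynomial MeasureTheory Filter Topology
open Pool.Agent.K3h15.DM (Rx)
open Pool.Agent.K3h34.BF (ev StmIbp)

/-- the derivative of a polynomial function along a coordinate -/
theorem ev_deriv {n : ℕ} (p : Rx n) (x : Fin n → ℝ) (i : Fin n) :
    HasDerivAt (fun t : ℝ => ev (x + t • (Pi.single i 1 : Fin n → ℝ)) p)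
      (ev x (pderiv i p)) 0 := by
  induction p using MvPolynomial.induction_on with
  | C a =>
    simp only [ev, eval_C, pderiv_C, map_zero]
    exact hasDerivAt_const _ _
  | add p q hp hq =>
    have e : (fun t : ℝ => ev (x + t • (Pi.single i 1 : Fin n → ℝ)) (p + q)) =
        (fun t : ℝ => ev (x + t • (Pi.single i 1 : Fin n → ℝ)) p) +
          fun t : ℝ => ev (x + t • (Pi.single i 1 : Fin n → ℝ)) q := by
      funext t; simp [ev]
    have e2 : ev x (pderiv i (p + q)) = ev x (pderiv i p) + ev x (pderiv i q) := by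
      simp [ev]
    rw [e, e2]
    exact hp.add hq
  | mul_X p j hp =>
    have hX : HasDerivAt (fun t : ℝ => (((x + t • (Pi.single i 1 : Fin n → ℝ)) j : ℝ) : ℂ))
        (((Pi.single i 1 : Fin n → ℝ) j : ℝ) : ℂ) 0 := by
      have h1 : HasDerivAt (fun t : ℝ => (x + t • (Pi.single i 1 : Fin n → ℝ)) j)
          ((Pi.single i 1 : Fin n → ℝ) j) 0 := by
        have h2 := ((hasDerivAt_id (0 : ℝ)).mul_const ((Pi.single i 1 : Fin n → ℝ) j)).const_add
          (x j)
        simpa using h2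
      exact h1.ofReal_comp
    have e : (fun t : ℝ => ev (x + t • (Pi.single i 1 : Fin n → ℝ)) (p * X j)) =
        (fun t : ℝ => ev (x + t • (Pi.single i 1 : Fin n → ℝ)) p) *
          fun t : ℝ => (((x + t • (Pi.single i 1 : Fin n → ℝ)) j : ℝ) : ℂ) := by
      funext t; simp [ev]
    rw [e]
    refine (hp.mul hX).congr_deriv ?_
    simp only [ev, Derivation.leibniz, pderiv_X, smul_eq_mul, map_add, map_mul, eval_X]
    by_cases hj : i = j
    · subst hj
      simp
      ring
    · simp [Pi.single_apply, hj, Ne.symm hj]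
      ring

theorem ev_cont {n : ℕ} (p : Rx n) : Continuous fun x : Fin n → ℝ => ev x p := by
  unfold ev
  have h1 : Continuous fun z : Fin n → ℂ => eval z p := MvPolynomial.continuous_eval p
  exact h1.comp (by fun_prop)

theorem ev_bdd {n : ℕ} (p : Rx n) {U : Set (Fin n → ℝ)} (hU : Bornology.IsBounded U) :
    ∃ C : ℝ, 0 ≤ C ∧ ∀ x ∈ U, ‖ev x p‖ ≤ C := by
  have h1 : IsCompact (closure U) := hU.isCompact_closure
  obtain ⟨C, hC⟩ := h1.exists_bound_of_continuousOn (ev_cont p).continuousOn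
  exact ⟨max C 0, le_max_right _ _, fun x hx => (hC x (subset_closure hx)).trans (le_max_left _ _)⟩

/-- the absolute value of the exponentials -/
theorem norm_exp_mul {z w : ℂ} (h : Complex.exp z = w) (σ : ℝ) :
    ‖Complex.exp ((σ : ℂ) * z)‖ = ‖w‖ ^ σ := by
  rw [← h, Complex.norm_exp, Complex.norm_exp, Complex.re_ofReal_mul, ← Real.exp_mul, mul_comm]

theorem line_in {n : ℕ} {U : Set (Fin n → ℝ)} {L : (Fin n → ℝ) → ℂ} {p : Rx n}
    (hU : IsOpen U) (hL : ContinuousOn L U) (hp : ∀ x ∈ U, Complex.exp (L x) = ev x p)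
    (s : ℝ) (i : Fin n) {x : Fin n → ℝ} (hx : x ∈ U) :
    HasDerivAt (fun t : ℝ => Complex.exp (((s + 1 : ℝ) : ℂ) *
        L (x + t • (Pi.single i 1 : Fin n → ℝ))))
      (((s + 1 : ℝ) : ℂ) * Complex.exp ((s : ℂ) * L x) * ev x (pderiv i p)) 0 := by
  set γ : ℝ → (Fin n → ℝ) := fun t => x + t • (Pi.single i 1 : Fin n → ℝ) with hγ
  have hγ0 : γ 0 = x := by simp [hγ]
  have hγc : Continuous γ := by fun_prop
  have hLc : ContinuousAt L x := hL.continuousAt (hU.mem_nhds hx)
  have hLγ : ContinuousAt (fun t => L (γ t)) 0 := by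
    have h1 : ContinuousAt L (γ 0) := by rw [hγ0]; exact hLc
    exact h1.comp hγc.continuousAt
  have hP := ev_deriv p x i
  have hP0 : ev x p ≠ 0 := by rw [← hp x hx]; exact Complex.exp_ne_zero _
  have hUev : ∀ᶠ t in 𝓝 (0 : ℝ), γ t ∈ U := by
    have h1 : γ ⁻¹' U ∈ 𝓝 (0 : ℝ) := (hU.preimage hγc).mem_nhds (by
      rw [Set.mem_preimage, hγ0]; exact hx)
    exact h1
  have hsmall : ∀ᶠ t in 𝓝 (0 : ℝ), ‖L (γ t) - L x‖ < Real.pi := by
    have h1 : Tendsto (fun t => ‖L (γ t) - L x‖) (𝓝 0) (𝓝 ‖L (γ 0) - L x‖) :=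
      ((hLγ.sub continuousAt_const).norm)
    rw [hγ0, sub_self, norm_zero] at h1
    exact h1.eventually (gt_mem_nhds Real.pi_pos)
  have hev : (fun t => L (γ t)) =ᶠ[𝓝 0] fun t => L x + Complex.log (ev (γ t) p / ev x p) := by
    filter_upwards [hUev, hsmall] with t ht hs
    have h1 : ev (γ t) p / ev x p = Complex.exp (L (γ t) - L x) := by
      rw [Complex.exp_sub, hp _ ht, hp _ hx]
    have h2 := (Complex.abs_im_le_norm (L (γ t) - L x)).trans_lt hs
    rw [abs_lt] at h2
    rw [h1, Complex.log_exp h2.1 h2.2.le]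
    ring
  have hlog : HasDerivAt (fun t => L (γ t)) (ev x (pderiv i p) / ev x p) 0 := by
    refine HasDerivAt.congr_of_eventuallyEq ?_ hev
    refine HasDerivAt.const_add _ ?_
    have h1 : HasDerivAt (fun t => ev (γ t) p / ev x p) (ev x (pderiv i p) / ev x p) 0 :=
      hP.div_const _
    have h2 := h1.clog_real (by
      rw [hγ0, div_self hP0]
      exact Complex.one_mem_slitPlane)
    rw [hγ0, div_self hP0, div_one] at h2
    exact h2
  have h3 := (hlog.const_mul ((s + 1 : ℝ) : ℂ)).cexp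
  refine h3.congr_deriv ?_
  rw [hγ0, ← hp x hx]
  have h4 : Complex.exp (((s + 1 : ℝ) : ℂ) * L x) = Complex.exp ((s : ℂ) * L x) *
      Complex.exp (L x) := by
    rw [← Complex.exp_add]; congr 1; push_cast; ring
  rw [h4]
  have h5 := Complex.exp_ne_zero (L x)
  field_simp

/-- a function bounded by a power of a function which vanishes at `0` -/
theorem deriv_zero {F P : ℝ → ℂ} {P' : ℂ} {s : ℝ} (hs : 0 < s) (hP : HasDerivAt P P' 0)
    (hP0 : P 0 = 0) (hF0 : F 0 = 0) (hF : ∀ t, ‖F t‖ ≤ ‖P t‖ ^ (s + 1)) : HasDerivAt F 0 0 := by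
  rw [hasDerivAt_iff_isLittleO]
  simp only [hF0, sub_zero, smul_zero]
  have h1 : P =O[𝓝 0] fun t : ℝ => t := by
    have := hP.isBigO_sub
    simpa [hP0] using this
  have h2 : Tendsto (fun t => ‖P t‖ ^ s) (𝓝 0) (𝓝 0) := by
    have h3 : ContinuousAt (fun t => ‖P t‖ ^ s) 0 :=
      (hP.continuousAt.norm).rpow_const (Or.inr hs.le)
    have h4 : Tendsto (fun t => ‖P t‖ ^ s) (𝓝 0) (𝓝 (‖P 0‖ ^ s)) := h3
    rwa [hP0, norm_zero, Real.zero_rpow hs.ne'] at h4
  have h3 : (fun t => ‖P t‖ ^ s) =o[𝓝 0] fun _ : ℝ => (1 : ℝ) :=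
    (Asymptotics.isLittleO_one_iff ℝ).2 h2
  have h4 : (fun t => ‖P t‖ ^ s * ‖P t‖) =o[𝓝 0] fun t : ℝ => (1 : ℝ) * ‖t‖ :=
    h3.mul_isBigO h1.norm_norm
  have h5 : F =O[𝓝 0] fun t => ‖P t‖ ^ s * ‖P t‖ := by
    refine Asymptotics.IsBigO.of_bound 1 (Eventually.of_forall fun t => ?_)
    have h6 : ‖P t‖ ^ s * ‖P t‖ = ‖P t‖ ^ (s + 1) := by
      rw [Real.rpow_add_of_nonneg (norm_nonneg _) hs.le zero_le_one, Real.rpow_one]
    rw [h6, one_mul, Real.norm_of_nonneg (Real.rpow_nonneg (norm_nonneg _) _)]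
    exact hF t
  have h7 := h5.trans_isLittleO h4
  simp only [one_mul] at h7
  exact Asymptotics.isLittleO_norm_right.1 h7

theorem integ {n : ℕ} {U : Set (Fin n → ℝ)} (hU : IsOpen U) (hb : Bornology.IsBounded U)
    {h : (Fin n → ℝ) → ℂ} (hc : ContinuousOn h U) {C : ℝ} (hC : ∀ x ∈ U, ‖h x‖ ≤ C) :
    IntegrableOn h U := by
  have hfin : IsFiniteMeasure (volume.restrict U) :=
    ⟨by rw [Measure.restrict_apply_univ]; exact hb.measure_lt_top⟩
  exact Integrable.of_bound (hc.aestronglyMeasurable hU.measurableSet) C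
    ((ae_restrict_iff' hU.measurableSet).2 (Eventually.of_forall hC))

theorem t_Ibp : StmIbp := by
  intro n U L p hU hb hL hp hfr s i g hs
  set ψ : (Fin n → ℝ) → ℂ := U.indicator fun x => Complex.exp (((s + 1 : ℝ) : ℂ) * L x) with hψ
  set ψ' : (Fin n → ℝ) → ℂ := U.indicator fun x =>
    ((s + 1 : ℝ) : ℂ) * Complex.exp ((s : ℂ) * L x) * ev x (pderiv i p) with hψ'
  have hs1 : 0 ≤ s + 1 := by linarith
  have hline : ∀ x, HasLineDerivAt ℝ ψ (ψ' x) x (Pi.single i 1) := by
    intro x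
    unfold HasLineDerivAt
    by_cases hx : x ∈ U
    · have h1 := line_in hU hL hp s i hx
      rw [hψ', Set.indicator_of_mem hx]
      refine h1.congr_of_eventuallyEq ?_
      have hγc : Continuous fun t : ℝ => x + t • (Pi.single i 1 : Fin n → ℝ) := by fun_prop
      have h2 : (fun t : ℝ => x + t • (Pi.single i 1 : Fin n → ℝ)) ⁻¹' U ∈ 𝓝 (0 : ℝ) :=
        (hU.preimage hγc).mem_nhds (by simpa using hx)
      filter_upwards [h2] with t ht
      have ht' : x + t • (Pi.single i 1 : Fin n → ℝ) ∈ U := ht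
      rw [hψ, Set.indicator_of_mem ht']
    · rw [hψ', Set.indicator_of_notMem hx]
      by_cases hxc : x ∈ closure U
      · have hxf : x ∈ frontier U := by
          rw [hU.frontier_eq]
          exact ⟨hxc, hx⟩
        refine deriv_zero hs (ev_deriv p x i) ?_ ?_ ?_
        · simpa using hfr x hxf
        · rw [zero_smul, add_zero, hψ, Set.indicator_of_notMem hx]
        · intro t
          by_cases ht : x + t • (Pi.single i 1 : Fin n → ℝ) ∈ U
          · rw [hψ, Set.indicator_of_mem ht, norm_exp_mul (hp _ ht)]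
          · rw [hψ, Set.indicator_of_notMem ht, norm_zero]
            exact Real.rpow_nonneg (norm_nonneg _) _
      · have hγc : Continuous fun t : ℝ => x + t • (Pi.single i 1 : Fin n → ℝ) := by fun_prop
        have h2 : (fun t : ℝ => x + t • (Pi.single i 1 : Fin n → ℝ)) ⁻¹' (closure U)ᶜ ∈
            𝓝 (0 : ℝ) :=
          (isClosed_closure.isOpen_compl.preimage hγc).mem_nhds (by simpa using hxc)
        refine (hasDerivAt_const (0 : ℝ) (0 : ℂ)).congr_of_eventuallyEq ?_
        filter_upwards [h2] with t ht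
        rw [hψ, Set.indicator_of_notMem]
        exact fun h => ht (subset_closure h)
  -- bounds
  obtain ⟨Cp, hCp0, hCp⟩ := ev_bdd p hb
  obtain ⟨Cg, hCg0, hCg⟩ := ev_bdd g hb
  obtain ⟨Cg', hCg'0, hCg'⟩ := ev_bdd (pderiv i g) hb
  obtain ⟨Cp', hCp'0, hCp'⟩ := ev_bdd (pderiv i p) hb
  have hexpc : ∀ σ : ℝ, ContinuousOn (fun x => Complex.exp ((σ : ℂ) * L x)) U := by
    intro σ
    exact Complex.continuous_exp.comp_continuousOn (continuousOn_const.mul hL)
  have hexpb : ∀ σ : ℝ, 0 ≤ σ → ∀ x ∈ U, ‖Complex.exp ((σ : ℂ) * L x)‖ ≤ Cp ^ σ := by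
    intro σ hσ x hx
    rw [norm_exp_mul (hp x hx)]
    exact Real.rpow_le_rpow (norm_nonneg _) (hCp x hx) hσ
  have i1 : IntegrableOn (fun x => Complex.exp (((s + 1 : ℝ) : ℂ) * L x) * ev x g) U := by
    refine integ hU hb ((hexpc _).mul (ev_cont g).continuousOn) (C := Cp ^ (s + 1) * Cg) ?_
    intro x hx
    rw [norm_mul]
    exact mul_le_mul (hexpb _ hs1 x hx) (hCg x hx) (norm_nonneg _) (by positivity)
  have i2 : IntegrableOn (fun x => Complex.exp (((s + 1 : ℝ) : ℂ) * L x) * ev x (pderiv i g)) U := by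
    refine integ hU hb ((hexpc _).mul (ev_cont _).continuousOn) (C := Cp ^ (s + 1) * Cg') ?_
    intro x hx
    rw [norm_mul]
    exact mul_le_mul (hexpb _ hs1 x hx) (hCg' x hx) (norm_nonneg _) (by positivity)
  have i3 : IntegrableOn (fun x => ((s + 1 : ℝ) : ℂ) * Complex.exp ((s : ℂ) * L x) *
      ev x (pderiv i p) * ev x g) U := by
    refine integ hU hb (((continuousOn_const.mul (hexpc _)).mul (ev_cont _).continuousOn).mul
      (ev_cont _).continuousOn) (C := (s + 1) * Cp ^ s * Cp' * Cg) ?_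
    intro x hx
    rw [norm_mul, norm_mul, norm_mul, Complex.norm_real, Real.norm_of_nonneg hs1]
    have h1 := hexpb s hs.le x hx
    have h2 := hCp' x hx
    have h3 := hCg x hx
    gcongr
  have key := integral_bilinear_hasLineDerivAt_right_eq_neg_left_of_integrable
    (μ := (volume : Measure (Fin n → ℝ))) (f := ψ) (f' := ψ') (g := fun x => ev x g)
    (g' := fun x => ev x (pderiv i g)) (v := (Pi.single i 1 : Fin n → ℝ))
    (B := ContinuousLinearMap.mul ℝ ℂ) ?_ ?_ ?_ (fun x _ => hline x)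
    (fun x _ => ev_deriv g x i)
  · simp only [ContinuousLinearMap.mul_apply'] at key
    have e1 : (fun x => ψ x * ev x (pderiv i g)) =
        U.indicator fun x => Complex.exp (((s + 1 : ℝ) : ℂ) * L x) * ev x (pderiv i g) := by
      funext x
      by_cases hx : x ∈ U <;> simp [hψ, hx]
    have e2 : (fun x => ψ' x * ev x g) =
        U.indicator fun x => ((s + 1 : ℝ) : ℂ) * Complex.exp ((s : ℂ) * L x) *
          ev x (pderiv i p) * ev x g := by
      funext x
      by_cases hx : x ∈ U <;> simp [hψ', hx]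
    rw [e1, e2, integral_indicator hU.measurableSet, integral_indicator hU.measurableSet] at key
    have e3 : ∀ x ∈ U, Complex.exp ((s : ℂ) * L x) *
        ev x (p * pderiv i g + C ((s : ℂ) + 1) * pderiv i p * g) =
        Complex.exp (((s + 1 : ℝ) : ℂ) * L x) * ev x (pderiv i g) +
        ((s + 1 : ℝ) : ℂ) * Complex.exp ((s : ℂ) * L x) * ev x (pderiv i p) * ev x g := by
      intro x hx
      have h4 : Complex.exp (((s + 1 : ℝ) : ℂ) * L x) = Complex.exp ((s : ℂ) * L x) *
          ev x p := by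
        rw [← hp x hx, ← Complex.exp_add]; congr 1; push_cast; ring
      rw [h4]
      simp only [ev, map_add, map_mul, eval_C]
      push_cast
      ring
    rw [setIntegral_congr_fun hU.measurableSet e3, integral_add i2 i3, key]
    ring
  · simp only [ContinuousLinearMap.mul_apply']
    have e2 : (fun x => ψ' x * ev x g) =
        U.indicator fun x => ((s + 1 : ℝ) : ℂ) * Complex.exp ((s : ℂ) * L x) *
          ev x (pderiv i p) * ev x g := by
      funext x
      by_cases hx : x ∈ U <;> simp [hψ', hx]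
    rw [e2, integrable_indicator_iff hU.measurableSet]
    exact i3
  · simp only [ContinuousLinearMap.mul_apply']
    have e1 : (fun x => ψ x * ev x (pderiv i g)) =
        U.indicator fun x => Complex.exp (((s + 1 : ℝ) : ℂ) * L x) * ev x (pderiv i g) := by
      funext x
      by_cases hx : x ∈ U <;> simp [hψ, hx]
    rw [e1, integrable_indicator_iff hU.measurableSet]
    exact i2
  · simp only [ContinuousLinearMap.mul_apply']
    have e1 : (fun x => ψ x * ev x g) =
        U.indicator fun x => Complex.exp (((s + 1 : ℝ) : ℂ) * L x) * ev x g := by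
      funext x
      by_cases hx : x ∈ U <;> simp [hψ, hx]
    rw [e1, integrable_indicator_iff hU.measurableSet]
    exact i1

end Pool.Agent.K3h67.BF
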